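import Pool.Agent.Helper82.MAH.Spec

/-!
# Equality in Mahler's inequality, all dimensions: statements of the parts (swarm EQ)
-/

set_option autoImplicit false

noncomputable section

open MeasureTheory Filter Topology Set
open scoped ENNReal InnerProductSpace

namespace Helper37.EQ

open Helper82.MAH

variable {d : ℕ}

/-- exponential integral of the gauge `N_{1/(1-s), 1/s}` -/
def A (K : CC d) (s : ℝ) : ℝ := ∫ x, Real.exp (-nrm K (1 / (1 - s)) (1 / s) x)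

/-- the level given by the lens -/
def D0 (K : CC d) : ℝ := (d : ℝ) - Real.log (volume (Vst K)).toReal

/-- EBA (the entropy bound without the lens; `Helper54/MAH/EB.lean`, `Helper13/MAH/S5.lean`) -/
def Q_EBA : Prop :=
  ∀ (d : ℕ) (K : CC d) (s : ℝ) (G : E d → ℝ), 0 < s → s < 1 → Good K G →
    Cl K (1 / (1 - s)) (1 / s) G → (d : ℝ) + Real.log (A K s) ≤ Ent G

/-- LEN (the lens; the second half of `Helper54/MAH/EB.lean`) -/
def Q_LEN : Prop :=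
  ∀ (d : ℕ) (K : CC d) (s : ℝ), 0 < s → s < 1 →
    0 < A K s ∧ 0 < (volume (Vst K)).toReal ∧ 1 ≤ A K s * (volume (Vst K)).toReal

/-- PAT (the path with two levels; adapt `Helper14/MAH/PATHN.lean`, `PATHL.lean`) -/
def Q_PAT : Prop :=
  ∀ (d : ℕ) (K : CC d) (s0 s1 α β M0 D D' : ℝ) (R0 φ0 φz : E d → ℝ), 0 < s0 → s0 < s1 → s1 < 1 →
    s0 ≤ α → α ≤ β → β ≤ s1 → D ≤ D' →
    1 ≤ M0 → Good K R0 → Cl K M0 (1 / s0) R0 → Cl K 1 M0 φ0 → Cl K M0 1 φz →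
    Integrable (fun x => Real.exp (-(φ0 x / (1 - s0)))) → Integrable (fun x => Real.exp (-φz x)) →
    (∀ s, s0 ≤ s → s ≤ s1 → ∀ G, Good K G → Cl K (1 / (1 - s)) (1 / s) G → D ≤ Ent G) →
    (∀ s, α ≤ s → s ≤ β → ∀ G, Good K G → Cl K (1 / (1 - s)) (1 / s) G → D' ≤ Ent G) →
    (s1 - s0) * D + (β - α) * (D' - D) ≤
      (1 - s0) * Real.log (∫ x, Real.exp (-(φ0 x / (1 - s0)))) +
      (∫ x, Real.exp (-R0 x) * φ0 x) +
      Real.log (∫ x, Real.exp (-φz x)) + (∫ x, Real.exp (-R0 x) * φz x) - (2 - s1) * Ent R0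

/-- NLQ (adapt `Helper66/MAH/NLM.lean`: replace S_PATH by Q_PAT, S_EB by Q_EBA and Q_LEN) -/
def Q_NLQ : Prop :=
  ∀ (d : ℕ) (K : CC d) (z : E d) (L M α β D' : ℝ), z ∈ interior K.C → 2 < L → 1 ≤ M →
    1 / L ≤ α → α ≤ β → β ≤ 1 - 1 / L → D0 K ≤ D' →
    (∀ s, α ≤ s → s ≤ β → D' ≤ (d : ℝ) + Real.log (A K s)) →
    (1 - 2 / L) * D0 K + (β - α) * (D' - D0 K) ≤
      (2 - 1 / L) * Real.log (∫ x, Real.exp (-nrm K 1 M x)) + ⟪K.e, z⟫_ℝ +
      (∫ x, Real.exp (-(L * pz K z x)) * (nrm K 1 M x + nrm K 1 M (z - x) - ⟪K.e, z⟫_ℝ)) /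
        (volume (Vin K z)).toReal - (1 + 1 / L) * Real.log (volume (Vin K z)).toReal

/-- N1Q (adapt `Helper82/MAH/N1.lean`; hypotheses Q_NLQ, S_LIL, S_LIM) -/
def Q_N1Q : Prop :=
  ∀ (d : ℕ) (K : CC d) (z : E d) (α β D' : ℝ), z ∈ interior K.C →
    0 < α → α ≤ β → β < 1 → D0 K ≤ D' →
    (∀ s, α ≤ s → s ≤ β → D' ≤ (d : ℝ) + Real.log (A K s)) →
    (d : ℝ) + Real.log (volume (Vin K z)).toReal + (β - α) * (D' - D0 K) ≤
      2 * Real.log (∫ x in K.C, Real.exp (-⟪K.e, x⟫_ℝ)) + ⟪K.e, z⟫_ℝ +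
        Real.log (volume (Vst K)).toReal

/-- CTA: continuity and the limit at `0` (dominated convergence; `N_{1/(1-s),1/s} ≥ N_{1,1}`; at `0` the
gauge tends to infinity outside the cone and to `e` on the cone, as in `Helper2/MAH/LIM.lean`) -/
def Q_CTA : Prop :=
  ∀ (d : ℕ) (K : CC d), ContinuousOn (A K) (Ioo 0 1) ∧
    Tendsto (fun j : ℕ => A K (1 / ((j : ℝ) + 2))) atTop
      (𝓝 (∫ x in K.C, Real.exp (-⟪K.e, x⟫_ℝ)))

/-- ONE: equality for one `z` makes `A` constant (hypotheses Q_N1Q, Q_LEN, Q_CTA) -/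
def Q_ONE : Prop :=
  ∀ (d : ℕ) (K : CC d) (z : E d), z ∈ interior K.C →
    2 * Real.log (∫ x in K.C, Real.exp (-⟪K.e, x⟫_ℝ)) + ⟪K.e, z⟫_ℝ +
        Real.log (volume (Vst K)).toReal ≤ (d : ℝ) + Real.log (volume (Vin K z)).toReal →
    ∀ s, 0 < s → s < 1 → A K s = ∫ x in K.C, Real.exp (-⟪K.e, x⟫_ℝ)

/-- GAU: the exponential integral of the gauge is at most `d!` times the volume of its ball
(the reverse of `gauge_int` in `Helper54/MAH/EB.lean`, same proof, all steps are equalities) -/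
def Q_GAU : Prop :=
  ∀ (d : ℕ) (K : CC d) (s : ℝ), 0 < s → s < 1 →
    ENNReal.ofReal (A K s) ≤
      (d.factorial : ℝ≥0∞) * volume {x | nrm K (1 / (1 - s)) (1 / s) x ≤ 1}

/-- SLI: the slices of the ball: if `-K ⊆ b K + a` then the slice at height `l - s`, `0 ≤ l ≤ 1`, lies in
`((1 - s) l + b s (1 - l)) K + const`, and there are no other slices -/
def Q_SLI : Prop :=
  ∀ (n : ℕ) (K : Set (Fin n → ℝ)) (b s : ℝ) (a : Fin n → ℝ), OB K → 0 ≤ b → 0 < s → s < 1 →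
    (∀ x ∈ K, ∃ z ∈ K, -x = b • z + a) → ∀ Q : CC (n + 1), Q.C = cone K → Q.e = top n 1 →
    volume {x | nrm Q (1 / (1 - s)) (1 / s) x ≤ 1} ≤
      ENNReal.ofReal ((∑ j ∈ Finset.range (n + 1), (1 - s) ^ (n - j) * (b * s) ^ j) / ((n : ℝ) + 1)) *
        volume K

/-- ASY: the upper bound for `A` (from GAU and SLI) -/
def Q_ASY : Prop :=
  ∀ (n : ℕ) (K : Set (Fin n → ℝ)) (b s : ℝ) (a : Fin n → ℝ), OB K → 0 ≤ b → 0 < s → s < 1 →
    (∀ x ∈ K, ∃ z ∈ K, -x = b • z + a) → ∀ Q : CC (n + 1), Q.C = cone K → Q.e = top n 1 →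
    A Q s ≤ (n.factorial : ℝ) * (volume K).toReal *
      ∑ j ∈ Finset.range (n + 1), (1 - s) ^ (n - j) * (b * s) ^ j

/-- SML: for `b < n` the sum is smaller than one for some `s` -/
def Q_SML : Prop :=
  ∀ (n : ℕ) (b : ℝ), 0 ≤ b → b < n → ∃ s, 0 < s ∧ s < 1 ∧
    ∑ j ∈ Finset.range (n + 1), (1 - s) ^ (n - j) * (b * s) ^ j < 1

/-- SMX: a body which is not in `b K + a` for any `b < n` is a simplex
(`Helper73/Eq3/S3.lean` with `Fin 4 → Fin (n + 1)`, contact points: `Helper33.M3.contact`) -/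
def Q_SMX : Prop :=
  ∀ (n : ℕ) (K : Set (Fin n → ℝ)), OB K →
    (∀ (b : ℝ) (a : Fin n → ℝ), 0 ≤ b → (∀ x ∈ K, ∃ z ∈ K, -x = b • z + a) → (n : ℝ) ≤ b) →
    ∃ y : Fin (n + 1) → Fin n → ℝ, K = convexHull ℝ (range y)

/-- EQM: equality in Mahler's inequality makes `K` a simplex (from ONE, ASY, SML, SMX and the
K block of MAH as in `Helper34/MAH/MAH.lean`) -/
def Q_EQM : Prop :=
  ∀ (n : ℕ) (K : Set (Fin n → ℝ)), OB K →
    volume K * volume (Polar K) ≤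
      ENNReal.ofReal (((n : ℝ) + 1) ^ (n + 1) / (n.factorial : ℝ) ^ 2) →
    ∃ y : Fin (n + 1) → Fin n → ℝ, K = convexHull ℝ (range y)

end Helper37.EQ
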